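import Mathlib

namespace Pool.Agent.Results.MP_e4b855_nt.EvenCase
open Polynomial Finset

/-- the multiset of sums over unordered pairs of distinct elements. -/
def PS (S : Finset ℤ) : Multiset ℤ := (S.powersetCard 2).val.map fun t => ∑ x ∈ t, x

lemma circ (M : Multiset ℂ) (h : ∀ a ∈ M, a = 0 ∨ ‖a‖ = 1) : ∃ c : ℕ, ∀ z : ℝ, 0 < z →
    z ^ c * ‖(M.map fun a => ((z⁻¹ : ℝ) : ℂ) - a).prod‖ = ‖(M.map fun a => (z : ℂ) - a).prod‖ := by
  induction M using Multiset.induction_on with
  | empty => exact ⟨0, by simp⟩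
  | cons a M ih =>
    obtain ⟨c, hc⟩ := ih fun b hb => h b (Multiset.mem_cons_of_mem hb)
    rcases h a (Multiset.mem_cons_self _ _) with rfl | ha
    · refine ⟨c + 2, fun z hz => ?_⟩
      rw [Multiset.map_cons, Multiset.map_cons, Multiset.prod_cons, Multiset.prod_cons, norm_mul,
        norm_mul, ← hc z hz, sub_zero, sub_zero, Complex.norm_real, Complex.norm_real,
        Real.norm_of_nonneg hz.le, Real.norm_of_nonneg (inv_pos.2 hz).le]
      field_simp
      ring
    · refine ⟨c + 1, fun z hz => ?_⟩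
      have e : z * ‖((z⁻¹ : ℝ) : ℂ) - a‖ = ‖(z : ℂ) - a‖ := by
        have h1 : a * (starRingEnd ℂ) a = 1 := by
          rw [Complex.mul_conj, Complex.normSq_eq_norm_sq, ha]; simp
        have h2 : (z : ℂ) * (((z⁻¹ : ℝ) : ℂ) - a) = -a * (starRingEnd ℂ) ((z : ℂ) - a) := by
          have : (z : ℂ) ≠ 0 := by exact_mod_cast hz.ne'
          rw [map_sub, Complex.conj_ofReal]
          push_cast
          field_simp
          linear_combination -h1
        have h3 := congrArg norm h2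
        rwa [norm_mul, norm_mul, norm_neg, ha, one_mul, Complex.norm_conj, Complex.norm_real,
          Real.norm_of_nonneg hz.le] at h3
      rw [Multiset.map_cons, Multiset.map_cons, Multiset.prod_cons, Multiset.prod_cons, norm_mul,
        norm_mul, ← hc z hz, ← e]
      ring

lemma sym (u s : ℝ[X]) (hu : u ≠ 0) (h : u.comp (X ^ 2) = u * s)
    (hs : ∀ z : ℝ, 0 < z → 0 < s.eval z) :
    ∃ c : ℕ, ∀ z : ℝ, 0 < z → z ^ c * s.eval z⁻¹ = s.eval z := by
  have hU : u.map (algebraMap ℝ ℂ) ≠ 0 := map_ne_zero hu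
  have hE : ∀ a : ℂ, (u.map (algebraMap ℝ ℂ)).eval (a ^ 2) =
      (u.map (algebraMap ℝ ℂ)).eval a * (s.map (algebraMap ℝ ℂ)).eval a := by
    intro a
    have := congrArg (fun p => (p.map (algebraMap ℝ ℂ)).eval a) h
    simpa [map_comp, eval_comp] using this
  have hr : ∀ a : ℂ, (u.map (algebraMap ℝ ℂ)).eval a = 0 → a = 0 ∨ ‖a‖ = 1 := by
    intro a ha
    by_contra hc
    push Not at hc
    have h1 : ∀ i : ℕ, (u.map (algebraMap ℝ ℂ)).eval (a ^ 2 ^ i) = 0 := by
      intro i
      induction i with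
      | zero => simpa using ha
      | succ i ih => rw [pow_succ, pow_mul, hE, ih, zero_mul]
    have h2 : Function.Injective fun i : ℕ => a ^ 2 ^ i := by
      intro i j hij
      have h3 := congrArg norm hij
      simp only [norm_pow] at h3
      exact Nat.pow_right_injective le_rfl
        (pow_right_injective₀ (norm_pos_iff.2 hc.1) hc.2 h3)
    exact hU (eq_zero_of_infinite_isRoot _ (Set.infinite_of_injective_forall_mem h2 h1))
  obtain ⟨c, hc⟩ := circ (s.map (algebraMap ℝ ℂ)).roots fun a ha => by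
    have h1 : (s.map (algebraMap ℝ ℂ)).eval a = 0 := (mem_roots'.1 ha).2
    rcases hr (a ^ 2) (by rw [hE, h1, mul_zero]) with h2 | h2
    · exact Or.inl (pow_eq_zero_iff (by norm_num) |>.1 h2)
    · rw [norm_pow] at h2
      exact Or.inr ((pow_eq_one_iff_of_nonneg (norm_nonneg _) (by norm_num)).1 h2)
  refine ⟨c, fun z hz => ?_⟩
  have key : ∀ w : ℝ, 0 < w → s.eval w = ‖(s.map (algebraMap ℝ ℂ)).leadingCoeff‖ *
      ‖((s.map (algebraMap ℝ ℂ)).roots.map fun a => (w : ℂ) - a).prod‖ := by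
    intro w hw
    rw [← norm_mul, ← (IsAlgClosed.splits _).eval_eq_prod_roots,
      show (w : ℂ) = algebraMap ℝ ℂ w from rfl, eval_map_algebraMap, aeval_algebraMap_apply,
      coe_aeval_eq_eval]
    simp [abs_of_pos (hs w hw)]
  rw [key _ hz, key _ (inv_pos.2 hz), ← hc z hz]
  ring

lemma cval (p : ℝ[X]) (c : ℕ) (h : ∀ z : ℝ, 0 < z → z ^ c * p.eval z⁻¹ = p.eval z) :
    c * p.eval 1 = 2 * p.derivative.eval 1 := by
  have h1 : HasDerivAt (fun z : ℝ => z ^ c * p.eval z⁻¹) _ 1 :=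
    (hasDerivAt_pow c 1).mul ((p.hasDerivAt (1 : ℝ)⁻¹).comp (1 : ℝ) (hasDerivAt_inv one_ne_zero))
  have h2 : HasDerivAt (fun z : ℝ => z ^ c * p.eval z⁻¹) _ 1 :=
    (p.hasDerivAt 1).congr_of_eventuallyEq
      (Filter.eventually_of_mem (Ioi_mem_nhds one_pos) fun z hz => h z hz)
  have := h1.unique h2
  simp at this
  linarith

lemma order (u s : ℝ[X]) (hu : u ≠ 0) (h : u.comp (X ^ 2) = u * s) (k c : ℕ)
    (hs : s.eval 1 = 2 ^ (k + 1)) (hc : ∀ z : ℝ, 0 < z → z ^ c * u.eval z⁻¹ = u.eval z) :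
    Odd k := by
  obtain ⟨q, hq, hd⟩ := exists_eq_pow_rootMultiplicity_mul_and_not_dvd u hu 1
  generalize u.rootMultiplicity 1 = j at hq
  have hq1 : q.eval 1 ≠ 0 := fun e => hd (dvd_iff_isRoot.2 e)
  have h1 : (X + 1) ^ j * q.comp (X ^ 2) = q * s := by
    apply mul_left_cancel₀ (pow_ne_zero j (X_sub_C_ne_zero (1 : ℝ)))
    rw [← mul_assoc _ q, ← hq, ← h, hq, ← mul_assoc, ← mul_pow]
    simp only [mul_comp, pow_comp, sub_comp, X_comp, C_comp, map_one, one_comp]
    ring
  have h2 := congrArg (eval 1) h1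
  simp only [eval_mul, eval_pow, eval_add, eval_X, eval_one, eval_comp, one_pow, hs] at h2
  have h3 : j = k + 1 := by
    rw [mul_comm] at h2
    have := mul_left_cancel₀ hq1 h2
    rw [one_add_one_eq_two] at this
    exact pow_right_injective₀ (by norm_num) (by norm_num) this
  have h4 : ∀ z : ℝ, 1 < z → z ^ c * (-z⁻¹) ^ j * q.eval z⁻¹ = q.eval z := by
    intro z hz
    have h5 := hc z (by linarith)
    rw [hq] at h5
    simp only [eval_mul, eval_pow, eval_sub, eval_X, eval_C] at h5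
    apply mul_left_cancel₀ (pow_ne_zero j (show z - 1 ≠ 0 by linarith))
    rw [← h5, show z⁻¹ - 1 = (z - 1) * (-z⁻¹) by field_simp; ring, mul_pow]
    ring
  have h5 : ContinuousAt (fun z : ℝ => z ^ c * (-z⁻¹) ^ j * q.eval z⁻¹) 1 := by
    have := q.continuous
    fun_prop (disch := norm_num)
  have h6 := tendsto_nhds_unique_of_eventuallyEq (l := nhdsWithin (1 : ℝ) (Set.Ioi 1))
    h5.continuousWithinAt.tendsto q.continuous.continuousWithinAt.tendsto
    (Filter.eventually_of_mem self_mem_nhdsWithin fun z hz => h4 z hz)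
  simp only [one_pow, inv_one, one_mul] at h6
  rcases Nat.even_or_odd k with he | ho
  · rw [h3, he.add_one.neg_one_pow] at h6
    exact absurd (by linarith) hq1
  · exact ho

lemma sqsum (g : ℤ → ℝ[X]) (S : Finset ℤ) :
    (∑ x ∈ S, g x) ^ 2 = ∑ x ∈ S, g x ^ 2 + 2 * ∑ t ∈ S.powersetCard 2, ∏ x ∈ t, g x := by
  induction S using Finset.induction_on with
  | empty => simp [show powersetCard 2 (∅ : Finset ℤ) = ∅ from rfl]
  | insert a S ha ih =>
    rw [powersetCard_succ_insert ha, sum_union, sum_image, sum_insert ha, sum_insert ha,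
      powersetCard_one, sum_map, add_sq, ih]
    · have : ∑ x ∈ S, ∏ y ∈ insert a ({x} : Finset ℤ), g y = g a * ∑ x ∈ S, g x := by
        rw [mul_sum]
        refine sum_congr rfl fun x hx => ?_
        rw [prod_insert (by simp; rintro rfl; exact ha hx), prod_singleton]
      simp only [Function.Embedding.coeFn_mk, this]
      ring
    · intro s hs t ht e
      have h1 : a ∉ s := fun h => ha ((mem_powersetCard.1 hs).1 h)
      have h2 : a ∉ t := fun h => ha ((mem_powersetCard.1 ht).1 h)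
      rw [← erase_insert h1, ← erase_insert h2]
      exact congrArg (fun w => erase w a) e
    · rw [disjoint_left]
      intro t ht h2
      obtain ⟨s, -, rfl⟩ := mem_image.1 h2
      exact ha ((mem_powersetCard.1 ht).1 (mem_insert_self _ _))

noncomputable def F (N : ℤ) (S : Finset ℤ) : ℝ[X] := ∑ x ∈ S, X ^ (x + N).toNat

lemma F_id (N : ℤ) (S : Finset ℤ) (h : ∀ x ∈ S, 0 ≤ x + N) :
    F N S ^ 2 - (F N S).comp (X ^ 2) =
      2 * ((PS S).map fun y => (X : ℝ[X]) ^ (y + 2 * N).toNat).sum := by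
  rw [F, sqsum, PS, Multiset.map_map, Polynomial.sum_comp]
  have e1 : ∑ x ∈ S, ((X : ℝ[X]) ^ (x + N).toNat).comp (X ^ 2) =
      ∑ x ∈ S, ((X : ℝ[X]) ^ (x + N).toNat) ^ 2 :=
    sum_congr rfl fun x _ => by rw [pow_comp, X_comp, ← pow_mul, ← pow_mul, mul_comm]
  rw [e1, add_sub_cancel_left]
  congr 1
  refine sum_congr rfl fun t ht => ?_
  obtain ⟨h1, h2⟩ := mem_powersetCard.1 ht
  obtain ⟨a, b, hab, rfl⟩ := card_eq_two.1 h2
  have ha := h a (h1 (by simp))
  have hb := h b (h1 (by simp))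
  simp only [Function.comp, prod_pair hab, sum_pair hab, ← pow_add]
  congr 1
  omega

lemma F_inj (N : ℤ) (S T : Finset ℤ) (h : ∀ x ∈ S, 0 ≤ x + N) (h' : ∀ x ∈ T, 0 ≤ x + N)
    (e : F N S = F N T) : S ⊆ T := by
  intro a ha
  by_contra hn
  have h1 := congrArg (fun p => coeff p (a + N).toNat) e
  simp only [F, finset_sum_coeff, coeff_X_pow] at h1
  rw [sum_eq_zero (s := T) fun x hx => if_neg fun e2 => hn (by
    have := h a ha
    have := h' x hx
    rwa [show a = x by omega])] at h1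
  have := (sum_eq_zero_iff_of_nonneg fun x _ => by split_ifs <;> norm_num).1 h1 a ha
  simp at this

theorem result (k : ℕ) (hk : 2 ≤ k) (he : Even k) (A B C : Finset ℤ)
    (hA : A.card = 2 ^ k) (hB : B.card = 2 ^ k) (hC : C.card = 2 ^ k)
    (h1 : PS A = PS B) (h2 : PS A = PS C) : A = B ∨ A = C ∨ B = C := by
  by_contra hne
  push Not at hne
  obtain ⟨N, hN⟩ : ∃ N : ℤ, ∀ x ∈ A ∪ B ∪ C, 0 ≤ x + N := by
    obtain ⟨m, hm⟩ := (A ∪ B ∪ C).bddBelow
    exact ⟨-m, fun x hx => by have := hm (mem_coe.2 hx); omega⟩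
  have nA : ∀ x ∈ A, 0 ≤ x + N := fun x hx => hN x (by simp [hx])
  have nB : ∀ x ∈ B, 0 ≤ x + N := fun x hx => hN x (by simp [hx])
  have nC : ∀ x ∈ C, 0 ≤ x + N := fun x hx => hN x (by simp [hx])
  have one : ∀ S : Finset ℤ, S.card = 2 ^ k → (F N S).eval 1 = 2 ^ k := fun S h => by
    simp [F, eval_finset_sum, h]
  have pos : ∀ S : Finset ℤ, S.card = 2 ^ k → ∀ z : ℝ, 0 < z → 0 < (F N S).eval z :=
    fun S h z hz => by
      rw [F, eval_finset_sum]
      exact sum_pos (fun x _ => by simpa using pow_pos hz _)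
        (card_pos.1 (by rw [h]; positivity))
  have hn : (1 : ℝ) < 2 ^ k := one_lt_pow₀ (by norm_num) (by omega)
  have pair : ∀ S T : Finset ℤ, S.card = 2 ^ k → T.card = 2 ^ k → (∀ x ∈ S, 0 ≤ x + N) →
      (∀ x ∈ T, 0 ≤ x + N) → PS S = PS T → S ≠ T → F N S - F N T ≠ 0 ∧
      (F N S - F N T).comp (X ^ 2) = (F N S - F N T) * (F N S + F N T) ∧
      (F N S).derivative.eval 1 = (F N T).derivative.eval 1 ∧
      ∃ c : ℕ, (c : ℝ) * 2 ^ k = 2 * (F N S).derivative.eval 1 ∧ ∀ z : ℝ, 0 < z →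
        z ^ c * (F N S + F N T).eval z⁻¹ = (F N S + F N T).eval z := by
    intro S T hS hT nS nT e hST
    have e0 : F N S - F N T ≠ 0 := fun e1 => hST (Subset.antisymm
      (F_inj N S T nS nT (sub_eq_zero.1 e1)) (F_inj N T S nT nS (sub_eq_zero.1 e1).symm))
    have e1 := F_id N S nS
    rw [e, ← F_id N T nT] at e1
    have e2 : (F N S - F N T).comp (X ^ 2) = (F N S - F N T) * (F N S + F N T) := by
      rw [sub_comp]; linear_combination -e1
    have e3 : (F N S).derivative.eval 1 = (F N T).derivative.eval 1 := by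
      have := congrArg (fun p => p.derivative.eval 1) e2
      simp [derivative_comp, eval_comp, one S hS, one T hT] at this
      apply mul_left_cancel₀ (show (2 : ℝ) ^ k - 1 ≠ 0 by linarith)
      linarith
    obtain ⟨c, hc⟩ := sym _ _ e0 e2 fun z hz => by
      rw [eval_add]; exact add_pos (pos S hS z hz) (pos T hT z hz)
    have e4 := cval _ c hc
    simp only [eval_add, derivative_add, one S hS, one T hT] at e4
    exact ⟨e0, e2, e3, c, by linarith, hc⟩
  obtain ⟨a0, a1, a2, c1, a3, a4⟩ := pair A B hA hB nA nB h1 hne.1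
  obtain ⟨-, -, -, c2, b3, b4⟩ := pair A C hA hC nA nC h2 hne.2.1
  obtain ⟨-, -, -, c3, d3, d4⟩ := pair B C hB hC nB nC (h1.symm.trans h2) hne.2.2
  have hp : (0 : ℝ) < 2 ^ k := by positivity
  have e1 : c2 = c3 := by
    have : (c2 : ℝ) = c3 := mul_right_cancel₀ hp.ne' (by linarith)
    exact_mod_cast this
  subst e1
  refine (Nat.not_odd_iff_even.2 he) (order _ _ a0 a1 k c2 ?_ fun z hz => ?_)
  · rw [eval_add, one A hA, one B hB]; ring
  · have := b4 z hz
    have := d4 z hz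
    simp only [eval_add, eval_sub] at *
    linarith

end Pool.Agent.Results.MP_e4b855_nt.EvenCase
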